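import Pool.Agent.H58b.CoverCount

open Polynomial

namespace Pool.Agent.H58b

theorem cv_fibre {N : ℕ} (hN : N ≠ 0) {x y : ℂ} (h : y ^ 2 = x ^ 3 + 1) (hy : y ≠ 0) :
    (3 * x ^ 2 ≠ 2 * y → {w | (x, y, w) ∈ cvCurve N}.ncard = N) ∧
      (3 * x ^ 2 = 2 * y → {w | (x, y, w) ∈ cvCurve N}.ncard = 1) := by
  have hset : {w | (x, y, w) ∈ cvCurve N} =
      ↑(nthRoots N (3 * x ^ 2 / (2 * y) - 1)).toFinset := by
    ext w
    rw [Set.mem_setOf_eq, cv_mem, Finset.mem_coe, cv_mem_nth hN]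
    constructor
    · rintro ⟨h1, h2, h3⟩
      rw [eq_sub_iff_add_eq, eq_div_iff (mul_ne_zero two_ne_zero hy)]
      linear_combination h2
    · intro hw
      refine ⟨by linear_combination h, ?_, hy⟩
      rw [eq_sub_iff_add_eq, eq_div_iff (mul_ne_zero two_ne_zero hy)] at hw
      linear_combination hw
  constructor
  · intro hne
    rw [hset, Set.ncard_coe_finset]
    apply cv_card_nth hN
    intro h0
    apply hne
    have h1 : 3 * x ^ 2 / (2 * y) = 1 := by linear_combination h0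
    rw [div_eq_iff (mul_ne_zero two_ne_zero hy)] at h1
    linear_combination h1
  · intro he
    have h1 : 3 * x ^ 2 / (2 * y) - 1 = 0 := by
      rw [he, div_self (mul_ne_zero two_ne_zero hy), sub_self]
    rw [Set.ncard_eq_one]
    refine ⟨0, ?_⟩
    rw [hset, h1]
    ext w
    rw [Finset.mem_coe, cv_mem_nth hN, Set.mem_singleton_iff]
    exact pow_eq_zero_iff hN

theorem cv_branch : {p : ℂ × ℂ | p.2 ^ 2 = p.1 ^ 3 + 1 ∧ p.2 ≠ 0 ∧
    3 * p.1 ^ 2 = 2 * p.2}.ncard = 4 := by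
  set p : ℂ[X] := 9 * X ^ 4 - 4 * X ^ 3 - 4 with hp
  have hdeg : p.natDegree = 4 := by
    rw [hp]
    compute_degree!
  have hsep : p.Separable := by
    refine ⟨C (1 / 436) * (-109 + 9 * X ^ 2),
      C (1 / 5232) * (-36 + 328 * X + 3 * X ^ 2 - 27 * X ^ 3), ?_⟩
    refine Polynomial.funext fun z => ?_
    rw [hp]
    simp [derivative_X_pow]
    ring
  have hp0 : p ≠ 0 := by
    intro h
    rw [h] at hdeg
    simp at hdeg
  have hcard : p.roots.toFinset.card = 4 := by
    rw [Multiset.toFinset_card_of_nodup (nodup_roots hsep),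
      splits_iff_card_roots.mp (IsAlgClosed.splits p), hdeg]
  have hmem : ∀ x : ℂ, x ∈ p.roots.toFinset ↔ 9 * x ^ 4 - 4 * x ^ 3 - 4 = 0 := by
    intro x
    rw [Multiset.mem_toFinset, mem_roots hp0, IsRoot.def, hp]
    simp only [eval_sub, eval_mul, eval_pow, eval_X, eval_ofNat]
  have hset : {p : ℂ × ℂ | p.2 ^ 2 = p.1 ^ 3 + 1 ∧ p.2 ≠ 0 ∧ 3 * p.1 ^ 2 = 2 * p.2} =
      ↑(p.roots.toFinset.image (fun x => (x, 3 * x ^ 2 / 2))) := by
    ext ⟨x, y⟩
    rw [Finset.coe_image, Set.mem_image]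
    simp only [Set.mem_setOf_eq, Finset.mem_coe, hmem, Prod.mk.injEq]
    constructor
    · rintro ⟨h1, h2, h3⟩
      have hy : y = 3 * x ^ 2 / 2 := by linear_combination (-1 / 2) * h3
      refine ⟨x, ?_, rfl, hy.symm⟩
      rw [hy] at h1
      linear_combination 4 * h1
    · rintro ⟨a, ha, rfl, rfl⟩
      refine ⟨by linear_combination (1 / 4) * ha, ?_, by ring⟩
      intro h0
      have : a ^ 2 = 0 := by linear_combination (2 / 3) * h0
      have ha0 : a = 0 := pow_eq_zero_iff (by norm_num) |>.mp this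
      rw [ha0] at ha
      norm_num at ha
  rw [hset, Set.ncard_coe_finset, Finset.card_image_of_injective, hcard]
  intro a b h
  exact (Prod.mk.inj h).1

end Pool.Agent.H58b
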