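import Pool.Agent.H58b.CoverMain

open Polynomial

namespace Pool.Agent.H58b

theorem cv_card_nth {N : ℕ} (hN : N ≠ 0) {c : ℂ} (hc : c ≠ 0) :
    (nthRoots N c).toFinset.card = N := by
  have hsep : (X ^ N - C c : ℂ[X]).Separable :=
    separable_X_pow_sub_C c (Nat.cast_ne_zero.mpr hN) hc
  rw [nthRoots, Multiset.toFinset_card_of_nodup (nodup_roots hsep)]
  rw [splits_iff_card_roots.mp (IsAlgClosed.splits (X ^ N - C c : ℂ[X])),
    natDegree_X_pow_sub_C]

theorem cv_mem_nth {N : ℕ} (hN : N ≠ 0) {c w : ℂ} :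
    w ∈ (nthRoots N c).toFinset ↔ w ^ N = c := by
  rw [Multiset.mem_toFinset, mem_nthRoots (Nat.pos_of_ne_zero hN)]

/-- the eight base points -/
noncomputable def cvBase (r : ℂ) : Finset (ℂ × ℂ) :=
  ({0} : Finset ℂ) ×ˢ ({1, -1} : Finset ℂ) ∪
    (nthRoots 3 (-4 : ℂ)).toFinset ×ˢ ({r, -r} : Finset ℂ)

theorem cv_base_card {r : ℂ} (hr : r ^ 2 = -3) : (cvBase r).card = 8 := by
  have hr0 : r ≠ 0 := by
    rintro rfl
    norm_num at hr
  unfold cvBase
  rw [Finset.card_union_of_disjoint, Finset.card_product, Finset.card_product,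
    cv_card_nth (by norm_num) (by norm_num), Finset.card_singleton, Finset.card_pair,
    Finset.card_pair]
  · intro h
    apply hr0
    linear_combination (1 / 2) * h
  · norm_num
  · rw [Finset.disjoint_left]
    rintro ⟨x, y⟩ h1 h2
    rw [Finset.mem_product] at h1 h2
    have e1 := Finset.mem_singleton.mp h1.1
    have e2 := (cv_mem_nth (by norm_num)).mp h2.1
    simp only at e1 e2
    rw [e1] at e2
    norm_num at e2

theorem cv_base_mem {r : ℂ} (hr : r ^ 2 = -3) {x y : ℂ} : (x, y) ∈ cvBase r ↔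
    (x = 0 ∧ y ^ 2 = 1) ∨ (x ^ 3 = -4 ∧ y ^ 2 = -3) := by
  unfold cvBase
  rw [Finset.mem_union, Finset.mem_product, Finset.mem_product, Finset.mem_singleton,
    cv_mem_nth (by norm_num), Finset.mem_insert, Finset.mem_insert, Finset.mem_singleton,
    Finset.mem_singleton]
  simp only
  have a1 : (y = 1 ∨ y = -1) ↔ y ^ 2 = 1 := by
    rw [← one_pow 2]
    rw [sq_eq_sq_iff_eq_or_eq_neg]
    simp
  have a2 : (y = r ∨ y = -r) ↔ y ^ 2 = -3 := by
    rw [← hr]
    exact sq_eq_sq_iff_eq_or_eq_neg.symm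
  rw [a1, a2]

theorem cv_base_slope {r : ℂ} (hr : r ^ 2 = -3) {x y : ℂ} (h : (x, y) ∈ cvBase r) :
    y ≠ 0 ∧ y ^ 2 = x ^ 3 + 1 ∧ 3 * x ^ 2 / (2 * y) - 1 ≠ 0 ∧
      (3 * x ^ 2 / (2 * y)) ^ 2 = 3 * x := by
  rcases (cv_base_mem hr).mp h with ⟨h1, h2⟩ | ⟨h1, h2⟩
  · subst h1
    have hy : y ≠ 0 := by
      rintro rfl
      norm_num at h2
    refine ⟨hy, by rw [h2]; norm_num, ?_, ?_⟩
    · norm_num
    · norm_num
  · have hy : y ≠ 0 := by
      rintro rfl
      norm_num at h2
    have hsq : (3 * x ^ 2 / (2 * y)) ^ 2 = 3 * x := by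
      rw [div_pow, div_eq_iff (pow_ne_zero 2 (mul_ne_zero two_ne_zero hy))]
      linear_combination 9 * x * h1 - 12 * x * h2
    refine ⟨hy, by rw [h2, h1]; norm_num, ?_, hsq⟩
    intro h0
    have h3 : 3 * x ^ 2 / (2 * y) = 1 := by linear_combination h0
    rw [h3] at hsq
    have hx : x = 1 / 3 := by linear_combination (-1 / 3) * hsq
    rw [hx] at h1
    norm_num at h1

theorem cv_count {N : ℕ} (hN : N ≠ 0) : (cvCritical N).ncard = 8 * N := by
  obtain ⟨r, hr⟩ := IsAlgClosed.exists_pow_nat_eq (-3 : ℂ) (n := 2) (by norm_num)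
  set K : Finset (Σ _ : ℂ × ℂ, ℂ) :=
    (cvBase r).sigma (fun p => (nthRoots N (3 * p.1 ^ 2 / (2 * p.2) - 1)).toFinset) with hK
  have hKc : K.card = 8 * N := by
    rw [hK, Finset.card_sigma, Finset.sum_congr rfl (g := fun _ => N), Finset.sum_const,
      cv_base_card hr, smul_eq_mul]
    rintro ⟨x, y⟩ hp
    exact cv_card_nth hN (cv_base_slope hr hp).2.2.1
  let φ : (Σ _ : ℂ × ℂ, ℂ) → ℂ × ℂ × ℂ := fun q => (q.1.1, q.1.2, q.2)
  have hφ : Function.Injective φ := by
    rintro ⟨⟨x, y⟩, w⟩ ⟨⟨x', y'⟩, w'⟩ h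
    simp only [φ, Prod.mk.injEq] at h
    obtain ⟨rfl, rfl, rfl⟩ := h
    rfl
  have hset : cvCritical N = ↑(K.image φ) := by
    ext ⟨x, y, w⟩
    rw [cv_critical_iff hN, cv_mem, Finset.mem_coe, Finset.mem_image]
    constructor
    · rintro ⟨⟨h1, h2, h3⟩, hL⟩
      refine ⟨⟨(x, y), w⟩, ?_, rfl⟩
      rw [hK, Finset.mem_sigma]
      have hslope : w ^ N + 1 = 3 * x ^ 2 / (2 * y) := by
        rw [eq_div_iff (mul_ne_zero two_ne_zero h3)]
        linear_combination h2
      refine ⟨?_, ?_⟩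
      · rw [cv_base_mem hr]
        have e : x * (x ^ 3 + 4) = 0 := by
          have e1 : (2 * y * (w ^ N + 1)) ^ 2 = 9 * x ^ 4 := by
            have : 2 * y * (w ^ N + 1) = 3 * x ^ 2 := by linear_combination h2
            rw [this]
            ring
          have e2 : 4 * y ^ 2 * (3 * x) = 9 * x ^ 4 := by
            rw [← hL, ← e1]
            ring
          linear_combination (1 / 3) * e2 - 4 * x * h1
        rcases mul_eq_zero.mp e with h | h
        · left
          refine ⟨h, ?_⟩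
          rw [h] at h1
          linear_combination h1
        · right
          have hx : x ^ 3 = -4 := by linear_combination h
          refine ⟨hx, ?_⟩
          linear_combination h1 + hx
      · rw [cv_mem_nth hN]
        simp only
        rw [← hslope]
        ring
    · rintro ⟨⟨⟨x', y'⟩, w'⟩, hm, he⟩
      simp only [φ, Prod.mk.injEq] at he
      obtain ⟨rfl, rfl, rfl⟩ := he
      rw [hK, Finset.mem_sigma] at hm
      obtain ⟨hb, hw⟩ := hm
      rw [cv_mem_nth hN] at hw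
      simp only at hw hb
      obtain ⟨b1, b2, b3, b4⟩ := cv_base_slope hr hb
      have hL : w' ^ N + 1 = 3 * x' ^ 2 / (2 * y') := by
        rw [hw]
        ring
      rw [hL]
      refine ⟨⟨by linear_combination b2, ?_, b1⟩, b4⟩
      field_simp
      ring
  rw [hset, Set.ncard_coe_finset, Finset.card_image_of_injective _ hφ, hKc]

end Pool.Agent.H58b
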