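import Mathlib

/-!
Cyclic covers of an elliptic curve minus its two-torsion, and the map given by the cover
coordinate and the intercept of the tangent line.
-/

namespace Pool.Agent.H58b

/-- Directional derivative at `P` in the direction `v`. -/
noncomputable def cvDir (F : ℂ × ℂ × ℂ → ℂ) (P v : ℂ × ℂ × ℂ) : ℂ :=
  deriv (fun s : ℂ => F (P + s • v)) 0

/-- First equation: `y ^ 2 = x ^ 3 + 1`. -/
def cvF (P : ℂ × ℂ × ℂ) : ℂ := P.2.1 ^ 2 - P.1 ^ 3 - 1

/-- Second equation: `2 y (w ^ N + 1) = 3 x ^ 2`, i.e. `w ^ N + 1` is the slope of the tangent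
line of the curve `y ^ 2 = x ^ 3 + 1` at `(x,y)`. -/
def cvG (N : ℕ) (P : ℂ × ℂ × ℂ) : ℂ := 2 * P.2.1 * (P.2.2 ^ N + 1) - 3 * P.1 ^ 2

/-- The affine curve `X_N`. -/
def cvCurve (N : ℕ) : Set (ℂ × ℂ × ℂ) := {P | cvF P = 0 ∧ cvG N P = 0 ∧ P.2.1 ≠ 0}

/-- The regular function `w`. -/
def cvU (P : ℂ × ℂ × ℂ) : ℂ := P.2.2

/-- The regular function `(2 - x ^ 3) / (2 y)`, the intercept of the tangent line. -/
noncomputable def cvV (P : ℂ × ℂ × ℂ) : ℂ := (2 - P.1 ^ 3) / (2 * P.2.1)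

/-- `v` is tangent to the curve at `P`. -/
def cvTangent (N : ℕ) (P v : ℂ × ℂ × ℂ) : Prop := cvDir cvF P v = 0 ∧ cvDir (cvG N) P v = 0

/-- The gradients of the two equations are linearly independent at `P`. -/
def cvSmooth (N : ℕ) (P : ℂ × ℂ × ℂ) : Prop :=
  ∀ a b : ℂ, (∀ v, a * cvDir cvF P v + b * cvDir (cvG N) P v = 0) → a = 0 ∧ b = 0

/-- Points of the curve at which the differentials of `w` and of the intercept both vanish on
the tangent line. -/
def cvCritical (N : ℕ) : Set (ℂ × ℂ × ℂ) :=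
  {P | P ∈ cvCurve N ∧ ∀ v, cvTangent N P v → cvDir cvU P v = 0 ∧ cvDir cvV P v = 0}

theorem cvDir_F (x y w a b c : ℂ) : cvDir cvF (x, y, w) (a, b, c) = 2 * y * b - 3 * x ^ 2 * a := by
  unfold cvDir cvF
  have h : HasDerivAt (fun s : ℂ => (y + s * b) ^ 2 - (x + s * a) ^ 3 - 1)
      (2 * y * b - 3 * x ^ 2 * a) 0 := by
    have h1 : HasDerivAt (fun s : ℂ => y + s * b) b 0 := by
      simpa using ((hasDerivAt_id (0 : ℂ)).mul_const b).const_add y
    have h2 : HasDerivAt (fun s : ℂ => x + s * a) a 0 := by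
      simpa using ((hasDerivAt_id (0 : ℂ)).mul_const a).const_add x
    refine HasDerivAt.congr_deriv (((h1.pow 2).sub (h2.pow 3)).sub_const 1) ?_
    norm_num
  exact h.deriv

theorem cvDir_G (N : ℕ) (x y w a b c : ℂ) : cvDir (cvG N) (x, y, w) (a, b, c) =
    2 * b * (w ^ N + 1) + 2 * y * (N * w ^ (N - 1) * c) - 6 * x * a := by
  unfold cvDir cvG
  have h : HasDerivAt (fun s : ℂ => 2 * (y + s * b) * ((w + s * c) ^ N + 1) -
      3 * (x + s * a) ^ 2)
      (2 * b * (w ^ N + 1) + 2 * y * (N * w ^ (N - 1) * c) - 6 * x * a) 0 := by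
    have h1 : HasDerivAt (fun s : ℂ => y + s * b) b 0 := by
      simpa using ((hasDerivAt_id (0 : ℂ)).mul_const b).const_add y
    have h2 : HasDerivAt (fun s : ℂ => x + s * a) a 0 := by
      simpa using ((hasDerivAt_id (0 : ℂ)).mul_const a).const_add x
    have h3 : HasDerivAt (fun s : ℂ => w + s * c) c 0 := by
      simpa using ((hasDerivAt_id (0 : ℂ)).mul_const c).const_add w
    refine HasDerivAt.congr_deriv (((h1.const_mul 2).mul ((h3.pow N).add_const 1)).sub
      ((h2.pow 2).const_mul 3)) ?_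
    norm_num
    ring
  exact h.deriv

theorem cvDir_U (x y w a b c : ℂ) : cvDir cvU (x, y, w) (a, b, c) = c := by
  unfold cvDir cvU
  have h : HasDerivAt (fun s : ℂ => w + s * c) c 0 := by
    simpa using ((hasDerivAt_id (0 : ℂ)).mul_const c).const_add w
  exact h.deriv

theorem cvDir_V (x y w a b c : ℂ) (hy : y ≠ 0) : cvDir cvV (x, y, w) (a, b, c) =
    (-(3 * x ^ 2 * a) * (2 * y) - (2 - x ^ 3) * (2 * b)) / (2 * y) ^ 2 := by
  unfold cvDir cvV
  have h : HasDerivAt (fun s : ℂ => (2 - (x + s * a) ^ 3) / (2 * (y + s * b)))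
      ((-(3 * x ^ 2 * a) * (2 * y) - (2 - x ^ 3) * (2 * b)) / (2 * y) ^ 2) 0 := by
    have h1 : HasDerivAt (fun s : ℂ => y + s * b) b 0 := by
      simpa using ((hasDerivAt_id (0 : ℂ)).mul_const b).const_add y
    have h2 : HasDerivAt (fun s : ℂ => x + s * a) a 0 := by
      simpa using ((hasDerivAt_id (0 : ℂ)).mul_const a).const_add x
    have h0 : 2 * (y + 0 * b) ≠ 0 := by simpa using hy
    refine HasDerivAt.congr_deriv (((h2.pow 3).const_sub 2).div (h1.const_mul 2) h0) ?_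
    norm_num
  exact h.deriv

end Pool.Agent.H58b
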