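import Pool.Agent.H58b.CoverDefs

open Polynomial

namespace Pool.Agent.H58b

theorem cv_mem {N : ℕ} {x y w : ℂ} : (x, y, w) ∈ cvCurve N ↔
    y ^ 2 - x ^ 3 - 1 = 0 ∧ 2 * y * (w ^ N + 1) - 3 * x ^ 2 = 0 ∧ y ≠ 0 := Iff.rfl

theorem cv_w_ne {N : ℕ} (hN : N ≠ 0) {x y w : ℂ} (h : (x, y, w) ∈ cvCurve N)
    (hL : (w ^ N + 1) ^ 2 = 3 * x) : w ≠ 0 := by
  obtain ⟨h1, h2, h3⟩ := cv_mem.mp h
  rintro rfl
  rw [zero_pow hN, zero_add] at hL h2
  have hx : x = 1 / 3 := by linear_combination (-1 / 3) * hL
  rw [hx] at h1 h2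
  have hy : y = 1 / 6 := by linear_combination (1 / 2) * h2
  rw [hy] at h1
  norm_num at h1

theorem cv_smooth {N : ℕ} (hN : N ≠ 0) {P : ℂ × ℂ × ℂ} (h : P ∈ cvCurve N) : cvSmooth N P := by
  obtain ⟨x, y, w⟩ := P
  obtain ⟨h1, h2, h3⟩ := cv_mem.mp h
  intro a b hab
  have e1 := hab (1, 0, 0)
  have e2 := hab (0, 1, 0)
  have e3 := hab (0, 0, 1)
  rw [cvDir_F, cvDir_G] at e1 e2 e3
  have hN' : (N : ℂ) ≠ 0 := Nat.cast_ne_zero.mpr hN
  by_cases hb : b = 0
  · subst hb
    refine ⟨?_, rfl⟩
    have : a * y = 0 := by linear_combination (1 / 2) * e2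
    rcases mul_eq_zero.mp this with h | h
    · exact h
    · exact absurd h h3
  · exfalso
    have hw : w ^ (N - 1) = 0 := by
      have : b * (2 * y * N) * w ^ (N - 1) = 0 := by linear_combination e3
      rcases mul_eq_zero.mp this with h | h
      · exact absurd h (mul_ne_zero hb (mul_ne_zero (mul_ne_zero two_ne_zero h3) hN'))
      · exact h
    have hwN : w ^ N = 0 := by
      have : N = N - 1 + 1 := by omega
      rw [this, pow_succ, hw, zero_mul]
    rw [hwN] at e2 h2
    -- e1 : a * (-3 x^2) + b * (-6 x) = 0, e2 : 2 y a + 2 b = 0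
    have hab' : b = -(a * y) := by linear_combination (1 / 2) * e2
    have ha : a ≠ 0 := by
      rintro rfl
      apply hb
      rw [hab']
      ring
    have hx : x * (2 * y - x) = 0 := by
      have : a * (x * (2 * y - x)) = 0 := by
        rw [hab'] at e1
        linear_combination (1 / 3) * e1
      rcases mul_eq_zero.mp this with h | h
      · exact absurd h ha
      · exact h
    rcases mul_eq_zero.mp hx with h | h
    · rw [h] at h2
      apply h3
      linear_combination (1 / 2) * h2
    · have hxy : x = 2 * y := by linear_combination -h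
      rw [hxy] at h2 h1
      have : y * (1 - 6 * y) = 0 := by linear_combination (1 / 2) * h2
      rcases mul_eq_zero.mp this with h | h
      · exact h3 h
      · have hy : y = 1 / 6 := by linear_combination (-1 / 6) * h
        rw [hy] at h1
        norm_num at h1

theorem cv_inj (N : ℕ) : Set.InjOn (fun P => (cvU P, cvV P)) (cvCurve N) := by
  rintro ⟨x, y, w⟩ h ⟨x', y', w'⟩ h' heq
  obtain ⟨h1, h2, h3⟩ := cv_mem.mp h
  obtain ⟨g1, g2, g3⟩ := cv_mem.mp h'
  simp only [cvU, cvV, Prod.mk.injEq] at heq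
  obtain ⟨hw, hv⟩ := heq
  subst hw
  set L := w ^ N + 1 with hL
  rw [div_eq_div_iff (mul_ne_zero two_ne_zero h3) (mul_ne_zero two_ne_zero g3)] at hv
  -- intercepts
  have k1 : 2 - x ^ 3 = 2 * y * (y - L * x) := by linear_combination -2 * h1 + x * h2
  have k2 : 2 - x' ^ 3 = 2 * y' * (y' - L * x') := by linear_combination -2 * g1 + x' * g2
  have hm : y - L * x = y' - L * x' := by
    rw [k1, k2] at hv
    have : (2 * y * (2 * y')) * ((y - L * x) - (y' - L * x')) = 0 := by linear_combination hv
    rcases mul_eq_zero.mp this with h | h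
    · exact absurd h (mul_ne_zero (mul_ne_zero two_ne_zero h3) (mul_ne_zero two_ne_zero g3))
    · exact sub_eq_zero.mp h
  set d := x' - x with hd
  have hy' : y' = y + L * d := by rw [hd]; linear_combination -hm
  have hx' : x' = x + d := by rw [hd]; ring
  have hd0 : d = 0 := by
    by_contra hne
    rw [hx', hy'] at g1 g2
    -- p(x') = 0 and p'(x') = 0
    have q1 : d * (d * ((3 * x - L ^ 2) + d)) = 0 := by linear_combination h1 - g1 + d * h2
    have q2 : d * (2 * (3 * x - L ^ 2) + 3 * d) = 0 := by linear_combination h2 - g2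
    have q1' : (3 * x - L ^ 2) + d = 0 := by
      rcases mul_eq_zero.mp q1 with h | h
      · exact absurd h hne
      · rcases mul_eq_zero.mp h with h | h
        · exact absurd h hne
        · exact h
    have q2' : 2 * (3 * x - L ^ 2) + 3 * d = 0 := by
      rcases mul_eq_zero.mp q2 with h | h
      · exact absurd h hne
      · exact h
    apply hne
    linear_combination q2' - 2 * q1'
  rw [hx', hy', hd0]
  simp

theorem cv_critical_iff {N : ℕ} (hN : N ≠ 0) (x y w : ℂ) : (x, y, w) ∈ cvCritical N ↔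
    (x, y, w) ∈ cvCurve N ∧ (w ^ N + 1) ^ 2 = 3 * x := by
  constructor
  · rintro ⟨h, hc⟩
    refine ⟨h, ?_⟩
    obtain ⟨h1, h2, h3⟩ := cv_mem.mp h
    by_cases hw : w ^ (N - 1) = 0
    · exfalso
      have ht : cvTangent N (x, y, w) (0, 0, 1) := by
        unfold cvTangent
        rw [cvDir_F, cvDir_G, hw]
        constructor <;> ring
      have := (hc _ ht).1
      rw [cvDir_U] at this
      exact one_ne_zero this
    · have ht : cvTangent N (x, y, w) (N * y * w ^ (N - 1), (w ^ N + 1) * (N * y * w ^ (N - 1)),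
          3 * x - (w ^ N + 1) ^ 2) := by
        unfold cvTangent
        rw [cvDir_F, cvDir_G]
        constructor
        · linear_combination (N * y * w ^ (N - 1)) * h2
        · ring
      have := (hc _ ht).1
      rw [cvDir_U] at this
      linear_combination -this
  · rintro ⟨h, hL⟩
    obtain ⟨h1, h2, h3⟩ := cv_mem.mp h
    refine ⟨h, ?_⟩
    rintro ⟨a, b, c⟩ ⟨t1, t2⟩
    rw [cvDir_F] at t1
    rw [cvDir_G] at t2
    rw [cvDir_U, cvDir_V _ _ _ _ _ _ h3]
    have hw := cv_w_ne hN h hL
    have hN' : (N : ℂ) ≠ 0 := Nat.cast_ne_zero.mpr hN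
    have hb : b = (w ^ N + 1) * a := by
      have : (2 * y) * (b - (w ^ N + 1) * a) = 0 := by linear_combination t1 - a * h2
      rcases mul_eq_zero.mp this with h | h
      · exact absurd h (mul_ne_zero two_ne_zero h3)
      · exact sub_eq_zero.mp h
    constructor
    · have : (2 * y * N * w ^ (N - 1)) * c = 0 := by
        rw [hb] at t2
        linear_combination t2 - 2 * a * hL
      rcases mul_eq_zero.mp this with h | h
      · exact absurd h (mul_ne_zero (mul_ne_zero (mul_ne_zero two_ne_zero h3) hN')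
          (pow_ne_zero _ hw))
      · exact h
    · rw [div_eq_zero_iff]
      left
      rw [hb]
      have k1 : 2 - x ^ 3 = 2 * y * (y - (w ^ N + 1) * x) := by
        linear_combination -2 * h1 + x * h2
      rw [k1]
      linear_combination (-(2 * y * a)) * h2 + 4 * x * y * a * hL

end Pool.Agent.H58b
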