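import Mathlib

/-!
Common critical points of injective regular maps from a punctured sphere to the plane.
-/

open Polynomial

namespace Pool.Agent.H58b

/-- `u` is regular on the complement of the finite set `S`: a rational function with poles
in `S` and at infinity only. -/
def CPRegular (S : Finset ℂ) (u : ℂ → ℂ) : Prop :=
  ∃ (P : ℂ[X]) (k : ℕ), ∀ z, z ∉ S → u z = P.eval z / (∏ s ∈ S, (z - s)) ^ k

/-- Common critical points of `u` and `v` outside `S`. -/
def cpCommon (S : Finset ℂ) (u v : ℂ → ℂ) : Set ℂ :=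
  {z | z ∉ S ∧ deriv u z = 0 ∧ deriv v z = 0}

/-- The number `N(0,n)`: the supremum of the number of common critical points. -/
noncomputable def cpN0 (n : ℕ) : ℕ∞ :=
  ⨆ (S : Finset ℂ) (u : ℂ → ℂ) (v : ℂ → ℂ)
    (_ : S.card + 1 = n ∧ CPRegular S u ∧ CPRegular S v ∧
      Set.InjOn (fun z => (u z, v z)) {z | z ∉ S}), (cpCommon S u v).encard

/-- A surface of type `(0,n)` with an injective pair having at least `m` common critical
points. -/
def CPWitness (n m : ℕ) : Prop :=
  ∃ (S : Finset ℂ) (u v : ℂ → ℂ) (T : Finset ℂ),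
    (S.card + 1 = n ∧ CPRegular S u ∧ CPRegular S v ∧
      Set.InjOn (fun z => (u z, v z)) {z | z ∉ S}) ∧ T.card = m ∧ (↑T : Set ℂ) ⊆ cpCommon S u v

theorem cp_witness {n m : ℕ} (S : Finset ℂ) (u v : ℂ → ℂ) (hS : S.card + 1 = n)
    (hu : CPRegular S u) (hv : CPRegular S v)
    (hinj : Set.InjOn (fun z => (u z, v z)) {z | z ∉ S})
    (p q r : ℂ[X]) (hpd : p.natDegree = m)
    (hsep' : ∀ z, q.eval z * p.eval z + r.eval z * (derivative p).eval z = 1)
    (hcrit : ∀ z, p.eval z = 0 → z ∉ S ∧ deriv u z = 0 ∧ deriv v z = 0) :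
    CPWitness n m := by
  have hsep : q * p + r * derivative p = 1 := by
    refine Polynomial.funext fun z => ?_
    simpa using hsep' z
  have hp0 : p ≠ 0 := by
    rintro rfl
    simp at hsep
  have hsepa : p.Separable := ⟨q, r, hsep⟩
  have hcard : p.roots.toFinset.card = m := by
    rw [Multiset.toFinset_card_of_nodup (nodup_roots hsepa)]
    rw [← hpd]
    exact (splits_iff_card_roots.mp (IsAlgClosed.splits p))
  refine ⟨S, u, v, p.roots.toFinset, ⟨hS, hu, hv, hinj⟩, hcard, ?_⟩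
  intro z hz
  have hz' : p.eval z = 0 := (mem_roots hp0).mp (Multiset.mem_toFinset.mp (Finset.mem_coe.mp hz))
  exact hcrit z hz'

theorem CPWitness.le {n m : ℕ} (h : CPWitness n m) : (m : ℕ∞) ≤ cpN0 n := by
  obtain ⟨S, u, v, T, h0, hT, hsub⟩ := h
  have h1 : (m : ℕ∞) ≤ (cpCommon S u v).encard := by
    rw [← hT, ← Set.encard_coe_eq_coe_finsetCard]
    exact Set.encard_le_encard hsub
  refine h1.trans ?_
  unfold cpN0
  refine le_iSup_of_le S ?_
  refine le_iSup_of_le u ?_
  refine le_iSup_of_le v ?_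
  exact le_iSup_of_le h0 le_rfl

theorem CPRegular.insert {S : Finset ℂ} {u : ℂ → ℂ} (h : CPRegular S u) {a : ℂ} (ha : a ∉ S) :
    CPRegular (insert a S) u := by
  obtain ⟨P, k, hP⟩ := h
  refine ⟨P * (X - C a) ^ k, k, fun z hz => ?_⟩
  rw [Finset.mem_insert, not_or] at hz
  have hza : (z - a) ^ k ≠ 0 := pow_ne_zero k (sub_ne_zero.mpr hz.1)
  rw [hP z hz.2, Finset.prod_insert ha, mul_pow, eval_mul, eval_pow, eval_sub, eval_X, eval_C,
    mul_comm ((z - a) ^ k) _, mul_div_mul_right _ _ hza]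

theorem CPWitness.succ {n m : ℕ} (h : CPWitness n m) : CPWitness (n + 1) m := by
  obtain ⟨S, u, v, T, ⟨h0, hu, hv, hinj⟩, hT, hsub⟩ := h
  obtain ⟨a, ha⟩ := Infinite.exists_notMem_finset (S ∪ T)
  rw [Finset.mem_union, not_or] at ha
  refine ⟨insert a S, u, v, T, ⟨?_, hu.insert ha.1, hv.insert ha.1, ?_⟩, hT, ?_⟩
  · rw [Finset.card_insert_of_notMem ha.1, h0]
  · refine hinj.mono ?_
    intro z hz
    simp only [Set.mem_setOf_eq, Finset.mem_insert, not_or] at hz ⊢
    exact hz.2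
  · intro z hz
    obtain ⟨h1, h2, h3⟩ := hsub hz
    refine ⟨?_, h2, h3⟩
    rw [Finset.mem_insert, not_or]
    refine ⟨?_, h1⟩
    rintro rfl
    exact ha.2 (Finset.mem_coe.mp hz)

end Pool.Agent.H58b
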