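import Pool.Agent.H58b.CritTwo

open Polynomial

namespace Pool.Agent.H58b

/-- the deltoid is injective -/
theorem cp_deltoid_inj {z w : ℂ} (hz : z ≠ 0) (hw : w ≠ 0) (h1 : (z ^ 3 + 2) / z = (w ^ 3 + 2) / w)
    (h2 : (2 * z ^ 3 + 1) / z ^ 2 = (2 * w ^ 3 + 1) / w ^ 2) : z = w := by
  by_contra hne
  have hd : z - w ≠ 0 := sub_ne_zero.mpr hne
  rw [div_eq_div_iff hz hw] at h1
  rw [div_eq_div_iff (pow_ne_zero 2 hz) (pow_ne_zero 2 hw)] at h2
  have e1 : z * w * (z + w) = 2 := by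
    have : (z - w) * (z * w * (z + w) - 2) = 0 := by linear_combination h1
    rcases mul_eq_zero.mp this with h | h
    · exact absurd h hd
    · linear_combination h
  have e2 : z + w = 2 * (z * w) ^ 2 := by
    have : (z - w) * ((z + w) - 2 * (z * w) ^ 2) = 0 := by linear_combination -h2
    rcases mul_eq_zero.mp this with h | h
    · exact absurd h hd
    · linear_combination h
  have hp : (z * w) ^ 3 = 1 := by
    rw [e2] at e1
    linear_combination (1 / 2) * e1
  have hsq : (z - w) ^ 2 = 0 := by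
    have : (z - w) ^ 2 = (z + w) ^ 2 - 4 * (z * w) := by ring
    rw [this, e2]
    linear_combination 4 * (z * w) * hp
  exact hd (pow_eq_zero_iff (two_ne_zero)|>.mp hsq)

theorem cp_five : CPWitness 5 6 := by
  obtain ⟨q, hq⟩ := IsAlgClosed.exists_pow_nat_eq (2 : ℂ) (n := 2) (by norm_num)
  have hq0 : q ≠ 0 := by
    rintro rfl
    norm_num at hq
  have hA : (1 : ℂ) + q ≠ 0 := by
    intro h
    have : q = -1 := by linear_combination h
    rw [this] at hq
    norm_num at hq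
  have hB : (1 : ℂ) + q ≠ 1 := by
    intro h
    exact hq0 (by linear_combination h)
  have hC : (1 : ℂ) + q ≠ -1 := by
    intro h
    have : q = -2 := by linear_combination h
    rw [this] at hq
    norm_num at hq
  have hn1 : (-1 : ℂ) ∉ ({1 + q} : Finset ℂ) := by
    rw [Finset.mem_singleton]; exact fun h => hC h.symm
  have hn2 : (1 : ℂ) ∉ ({-1, 1 + q} : Finset ℂ) := by
    rw [Finset.mem_insert, Finset.mem_singleton]
    rintro (h | h)
    · norm_num at h
    · exact hB h.symm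
  have hn3 : (0 : ℂ) ∉ ({1, -1, 1 + q} : Finset ℂ) := by
    rw [Finset.mem_insert, Finset.mem_insert, Finset.mem_singleton]
    rintro (h | h | h)
    · norm_num at h
    · norm_num at h
    · exact hA h.symm
  have hcard : ({0, 1, -1, 1 + q} : Finset ℂ).card = 4 := by
    rw [Finset.card_insert_of_notMem hn3, Finset.card_insert_of_notMem hn2,
      Finset.card_insert_of_notMem hn1, Finset.card_singleton]
  have hprod : ∀ z : ℂ, ∏ s ∈ ({0, 1, -1, 1 + q} : Finset ℂ), (z - s) =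
      z * ((z ^ 2 - 1) * (z - (1 + q))) := by
    intro z
    rw [Finset.prod_insert hn3, Finset.prod_insert hn2, Finset.prod_insert hn1,
      Finset.prod_singleton]
    ring
  have hmem : ∀ z : ℂ, z ∉ ({0, 1, -1, 1 + q} : Finset ℂ) ↔
      z ≠ 0 ∧ 1 - z ^ 2 ≠ 0 ∧ z ≠ 1 + q := by
    intro z
    have h3 : 1 - z ^ 2 = 0 ↔ z = 1 ∨ z = -1 := by
      constructor
      · intro h
        have h' : (z - 1) * (z + 1) = 0 := by linear_combination -h
        rcases mul_eq_zero.mp h' with h | h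
        · left; linear_combination h
        · right; linear_combination h
      · rintro (rfl | rfl) <;> norm_num
    simp only [Finset.mem_insert, Finset.mem_singleton, not_or, ne_eq, h3]
    tauto
  have key := cp_witness (n := 5) (m := 6) {0, 1, -1, 1 + q}
    (fun z => (1 + 2 * z + 2 * z ^ 3 - z ^ 4) / (2 * z - 2 * z ^ 3))
    (fun z => (4 * z ^ 3 + (1 - z ^ 2) ^ 3) / (z * (1 - z ^ 2) ^ 2))
    (by rw [hcard])
    ⟨C (-1 / 2) * (1 + 2 * X + 2 * X ^ 3 - X ^ 4) * (X - C (1 + q)), 1, fun z hz => ?_⟩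
    ⟨(4 * X ^ 3 + (1 - X ^ 2) ^ 3) * (X * (X - C (1 + q)) ^ 2), 2, fun z hz => ?_⟩ ?_
    (X ^ 6 - 3 * X ^ 4 + 8 * X ^ 3 + 3 * X ^ 2 - 1)
    (C (1 / 32) * (-32 + 9 * X + 3 * X ^ 2 - 7 * X ^ 3 - X ^ 4))
    (C (1 / 192) * (9 + 63 * X - 12 * X ^ 2 - 4 * X ^ 3 + 7 * X ^ 4 + X ^ 5)) ?_ ?_ ?_
  · exact key
  · obtain ⟨h0, h1, h2⟩ := (hmem z).mp hz
    have h2' : z - (1 + q) ≠ 0 := sub_ne_zero.mpr h2
    have h1' : z ^ 2 - 1 ≠ 0 := fun h => h1 (by linear_combination -h)
    have h4 : 2 * z - 2 * z ^ 3 ≠ 0 := by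
      have : 2 * z - 2 * z ^ 3 = 2 * (z * (1 - z ^ 2)) := by ring
      rw [this]
      exact mul_ne_zero two_ne_zero (mul_ne_zero h0 h1)
    rw [hprod, pow_one, div_eq_div_iff h4 (mul_ne_zero h0 (mul_ne_zero h1' h2'))]
    simp only [eval_mul, eval_C, eval_add, eval_sub, eval_pow, eval_X, eval_one, eval_ofNat]
    ring
  · obtain ⟨h0, h1, h2⟩ := (hmem z).mp hz
    have h2' : z - (1 + q) ≠ 0 := sub_ne_zero.mpr h2
    have h1' : z ^ 2 - 1 ≠ 0 := fun h => h1 (by linear_combination -h)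
    rw [hprod, div_eq_div_iff (mul_ne_zero h0 (pow_ne_zero 2 h1))
      (pow_ne_zero 2 (mul_ne_zero h0 (mul_ne_zero h1' h2')))]
    simp only [eval_mul, eval_C, eval_add, eval_sub, eval_pow, eval_X, eval_one, eval_ofNat]
    ring
  · -- injectivity
    intro z hz w hw h
    simp only [Set.mem_setOf_eq] at hz hw
    rw [hmem] at hz hw
    simp only [Prod.mk.injEq] at h
    obtain ⟨h1, h2⟩ := h
    obtain ⟨hz0, hz1, hz2⟩ := hz
    obtain ⟨hw0, hw1, hw2⟩ := hw
    have ident : ∀ s : ℂ, s ≠ 0 → 1 - s ^ 2 ≠ 0 →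
        ((2 * s / (1 - s ^ 2)) ^ 3 + 2) / (2 * s / (1 - s ^ 2)) =
          (4 * s ^ 3 + (1 - s ^ 2) ^ 3) / (s * (1 - s ^ 2) ^ 2) ∧
        (2 * (2 * s / (1 - s ^ 2)) ^ 3 + 1) / (2 * s / (1 - s ^ 2)) ^ 2 =
          ((1 + 2 * s + 2 * s ^ 3 - s ^ 4) / (2 * s - 2 * s ^ 3)) ^ 2 -
            (4 * s ^ 3 + (1 - s ^ 2) ^ 3) / (s * (1 - s ^ 2) ^ 2) - 2 := by
      intro s hs hs1
      have h4 : 2 * s - 2 * s ^ 3 = 2 * (s * (1 - s ^ 2)) := by ring
      rw [h4]
      constructor
      · field_simp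
        ring
      · field_simp
        ring
    obtain ⟨iz1, iz2⟩ := ident z hz0 hz1
    obtain ⟨iw1, iw2⟩ := ident w hw0 hw1
    have htz : 2 * z / (1 - z ^ 2) ≠ 0 := div_ne_zero (mul_ne_zero two_ne_zero hz0) hz1
    have htw : 2 * w / (1 - w ^ 2) ≠ 0 := div_ne_zero (mul_ne_zero two_ne_zero hw0) hw1
    have ht : 2 * z / (1 - z ^ 2) = 2 * w / (1 - w ^ 2) := by
      refine cp_deltoid_inj htz htw ?_ ?_
      · rw [iz1, iw1, h2]
      · rw [iz2, iw2, h1, h2]
    rw [div_eq_div_iff hz1 hw1] at ht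
    -- ht : 2 z (1 - w^2) = 2 w (1 - z^2), i.e. (z - w)(1 + z w) = 0
    have hf : (z - w) * (1 + z * w) = 0 := by linear_combination (1 / 2) * ht
    rcases mul_eq_zero.mp hf with h | h
    · exact sub_eq_zero.mp h
    · -- z w = -1, so the two values of the first function are opposite
      have h5 : 2 * z - 2 * z ^ 3 ≠ 0 := by
        have : 2 * z - 2 * z ^ 3 = 2 * (z * (1 - z ^ 2)) := by ring
        rw [this]
        exact mul_ne_zero two_ne_zero (mul_ne_zero hz0 hz1)
      have h6 : 2 * w - 2 * w ^ 3 ≠ 0 := by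
        have : 2 * w - 2 * w ^ 3 = 2 * (w * (1 - w ^ 2)) := by ring
        rw [this]
        exact mul_ne_zero two_ne_zero (mul_ne_zero hw0 hw1)
      rw [div_eq_div_iff h5 h6] at h1
      have d1 : (2 * w - 2 * w ^ 3) * z ^ 4 = 2 * z - 2 * z ^ 3 := by
        linear_combination (2 * z ^ 3 - 2 * z * ((w * z) ^ 2 - w * z + 1)) * h
      have d2 : (1 + 2 * w + 2 * w ^ 3 - w ^ 4) * z ^ 4 = -(1 + 2 * z + 2 * z ^ 3 - z ^ 4) := by
        linear_combination (2 * z ^ 3 + 2 * z * ((w * z) ^ 2 - w * z + 1) +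
          (1 - w * z) * (1 + (w * z) ^ 2)) * h
      have d3 : (2 * z - 2 * z ^ 3) * (1 + 2 * z + 2 * z ^ 3 - z ^ 4) = 0 := by
        linear_combination (1 / 2) * z ^ 4 * h1 -
          (1 / 2) * (1 + 2 * z + 2 * z ^ 3 - z ^ 4) * d1 + (1 / 2) * (2 * z - 2 * z ^ 3) * d2
      have h7 : (1 + z ^ 2) * (z ^ 2 - 2 * z - 1) = 0 := by
        rcases mul_eq_zero.mp d3 with h | h
        · exact absurd h h5
        · linear_combination -h
      rcases mul_eq_zero.mp h7 with h8 | h8
      · have h9 : z * (z - w) = 0 := by linear_combination h8 - h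
        rcases mul_eq_zero.mp h9 with h | h
        · exact absurd h hz0
        · exact sub_eq_zero.mp h
      · exfalso
        have h9 : (z - (1 + q)) * (z - (1 - q)) = 0 := by linear_combination h8 - hq
        rcases mul_eq_zero.mp h9 with h10 | h10
        · exact hz2 (sub_eq_zero.mp h10)
        · apply hw2
          have hz' : z = 1 - q := sub_eq_zero.mp h10
          have h11 : z * (w - (1 + q)) = 0 := by
            rw [hz'] at h ⊢
            linear_combination h + hq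
          rcases mul_eq_zero.mp h11 with h12 | h12
          · exact absurd h12 hz0
          · exact sub_eq_zero.mp h12
  · compute_degree!
  · intro z
    simp [derivative_X_pow]
    ring
  · intro z hz
    simp only [eval_add, eval_sub, eval_mul, eval_pow, eval_X, eval_one, eval_ofNat] at hz
    have h0 : z ≠ 0 := by
      rintro rfl
      norm_num at hz
    have h1 : 1 - z ^ 2 ≠ 0 := by
      intro h
      have : z ^ 3 = 0 := by
        have e : z ^ 6 - 3 * z ^ 4 + 8 * z ^ 3 + 3 * z ^ 2 - 1 =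
          8 * z ^ 3 - (1 - z ^ 2) ^ 3 := by ring
        rw [e, h] at hz
        linear_combination (1 / 8) * hz
      exact h0 (pow_eq_zero_iff (by norm_num) |>.mp this)
    have h2 : z ≠ 1 + q := by
      intro h
      have e1 : 2 * z = -(1 - z ^ 2) := by
        rw [h]
        linear_combination -hq
      have e : z ^ 6 - 3 * z ^ 4 + 8 * z ^ 3 + 3 * z ^ 2 - 1 =
          8 * z ^ 3 - (1 - z ^ 2) ^ 3 := by ring
      have e2 : 8 * z ^ 3 = -(1 - z ^ 2) ^ 3 := by
        have : 8 * z ^ 3 = (2 * z) ^ 3 := by ring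
        rw [this, e1]
        ring
      rw [e] at hz
      have : z ^ 3 = 0 := by linear_combination (1 / 16) * hz + (1 / 16) * e2
      exact h0 (pow_eq_zero_iff (by norm_num) |>.mp this)
    refine ⟨(hmem z).mpr ⟨h0, h1, h2⟩, ?_, ?_⟩
    · have hn : HasDerivAt (fun z : ℂ => 1 + 2 * z + 2 * z ^ 3 - z ^ 4)
          (2 + 6 * z ^ 2 - 4 * z ^ 3) z := by
        refine HasDerivAt.congr_deriv (f := fun z : ℂ => 1 + 2 * z + 2 * z ^ 3 - z ^ 4)
          (((((hasDerivAt_id z).const_mul 2).const_add (1 : ℂ)).add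
            ((hasDerivAt_pow 3 z).const_mul 2)).sub (hasDerivAt_pow 4 z)) ?_
        norm_num
        ring
      have hd : HasDerivAt (fun z : ℂ => 2 * z - 2 * z ^ 3) (2 - 6 * z ^ 2) z := by
        refine HasDerivAt.congr_deriv (f := fun z : ℂ => 2 * z - 2 * z ^ 3)
          (((hasDerivAt_id z).const_mul 2).sub ((hasDerivAt_pow 3 z).const_mul 2)) ?_
        norm_num
        ring
      have h4 : 2 * z - 2 * z ^ 3 ≠ 0 := by
        have : 2 * z - 2 * z ^ 3 = 2 * (z * (1 - z ^ 2)) := by ring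
        rw [this]
        exact mul_ne_zero two_ne_zero (mul_ne_zero h0 h1)
      refine cp_deriv_div (f := fun z => 1 + 2 * z + 2 * z ^ 3 - z ^ 4)
        (g := fun z => 2 * z - 2 * z ^ 3) hn hd h4 ?_
      linear_combination 2 * hz
    · have ha : HasDerivAt (fun z : ℂ => 1 - z ^ 2) (-(2 * z)) z := by
        refine HasDerivAt.congr_deriv (f := fun z : ℂ => 1 - z ^ 2)
          ((hasDerivAt_pow 2 z).const_sub (1 : ℂ)) ?_
        norm_num
      have hn := ((hasDerivAt_pow 3 z).const_mul (4 : ℂ)).add (ha.pow 3)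
      have hd := (hasDerivAt_id z).mul (ha.pow 2)
      refine cp_deriv_div (f := fun z => 4 * z ^ 3 + (1 - z ^ 2) ^ 3)
        (g := fun z => z * (1 - z ^ 2) ^ 2) hn hd (mul_ne_zero h0 (pow_ne_zero 2 h1)) ?_
      simp only [id, Pi.pow_apply]
      push_cast
      linear_combination (1 + z ^ 2) * (1 - z ^ 2) * hz

end Pool.Agent.H58b
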