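import Pool.Agent.H58b.CritTwo

open Polynomial

namespace Pool.Agent.H58b

theorem cp_four : CPWitness 4 5 := by
  set s₁ : ℂ := (-1 + Complex.I) / 2 with hs₁
  set s₂ : ℂ := (-1 - Complex.I) / 2 with hs₂
  have hI : Complex.I ^ 2 = -1 := Complex.I_sq
  have hI0 : Complex.I ≠ 0 := Complex.I_ne_zero
  have hne : s₁ ≠ s₂ := by
    intro h
    apply hI0
    rw [hs₁, hs₂] at h
    linear_combination h
  have hne1 : (-1 / 2 : ℂ) ≠ s₁ := by
    intro h
    apply hI0
    rw [hs₁] at h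
    linear_combination -2 * h
  have hne2 : (-1 / 2 : ℂ) ≠ s₂ := by
    intro h
    apply hI0
    rw [hs₂] at h
    linear_combination 2 * h
  have hcard : ({-1 / 2, s₁, s₂} : Finset ℂ).card = 3 := by
    rw [Finset.card_insert_of_notMem, Finset.card_pair hne]
    simp [hne1, hne2]
  have hprod : ∀ z : ℂ, ∏ s ∈ ({-1 / 2, s₁, s₂} : Finset ℂ), (z - s) =
      (4 * z ^ 3 + 6 * z ^ 2 + 4 * z + 1) / 4 := by
    intro z
    rw [Finset.prod_insert (by simp [hne1, hne2]), Finset.prod_pair hne, hs₁, hs₂]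
    linear_combination (-(z + 1 / 2) / 4) * hI
  have hmem : ∀ z : ℂ, z ∉ ({-1 / 2, s₁, s₂} : Finset ℂ) ↔
      4 * z ^ 3 + 6 * z ^ 2 + 4 * z + 1 ≠ 0 := by
    intro z
    have h3 : 4 * z ^ 3 + 6 * z ^ 2 + 4 * z + 1 =
        4 * ∏ s ∈ ({-1 / 2, s₁, s₂} : Finset ℂ), (z - s) := by
      rw [hprod]; ring
    rw [h3, ne_eq, mul_eq_zero, Finset.prod_eq_zero_iff]
    constructor
    · rintro h (h4 | ⟨a, ha, h5⟩)
      · norm_num at h4
      · exact h (by rw [sub_eq_zero.mp h5]; exact ha)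
    · intro h hz
      exact h (Or.inr ⟨z, hz, sub_self z⟩)
  have key := cp_witness (n := 4) (m := 5) {-1 / 2, s₁, s₂}
    (fun z => (z ^ 4 + z ^ 3) / (4 * z ^ 3 + 6 * z ^ 2 + 4 * z + 1))
    (fun z => (4 * z ^ 4 + 12 * z ^ 3 + 18 * z ^ 2 + 12 * z + 3) ^ 2 /
      (3 * (4 * z ^ 3 + 6 * z ^ 2 + 4 * z + 1)) ^ 2)
    (by rw [hcard])
    ⟨C (1 / 4) * (X ^ 4 + X ^ 3), 1, fun z hz => ?_⟩
    ⟨C (1 / 144) * (4 * X ^ 4 + 12 * X ^ 3 + 18 * X ^ 2 + 12 * X + 3) ^ 2, 2,
      fun z hz => ?_⟩ ?_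
    (X * (4 * X ^ 4 + 12 * X ^ 3 + 18 * X ^ 2 + 12 * X + 3))
    (C (1 / 9) * (6 + 270 * X + 330 * X ^ 2 + 200 * X ^ 3))
    (C (1 / 9) * (3 - 30 * X - 108 * X ^ 2 - 90 * X ^ 3 - 40 * X ^ 4)) ?_ ?_ ?_
  · exact key
  · have hD := (hmem z).mp hz
    rw [hprod]
    simp only [eval_mul, eval_C, eval_add, eval_pow, eval_X, pow_one]
    field_simp
  · have hD := (hmem z).mp hz
    rw [hprod]
    simp only [eval_mul, eval_C, eval_add, eval_pow, eval_X, eval_ofNat]
    field_simp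
    ring
  · intro z hz w hw h
    simp only [Set.mem_setOf_eq] at hz hw
    rw [hmem] at hz hw
    simp only [Prod.mk.injEq] at h
    obtain ⟨h1, h2⟩ := h
    set D := 4 * z ^ 3 + 6 * z ^ 2 + 4 * z + 1 with hD
    set E := 4 * w ^ 3 + 6 * w ^ 2 + 4 * w + 1 with hE
    have h30 : (3 : ℂ) ≠ 0 := by norm_num
    rw [div_eq_div_iff hz hw] at h1
    rw [div_eq_div_iff (pow_ne_zero 2 (mul_ne_zero h30 hz))
      (pow_ne_zero 2 (mul_ne_zero h30 hw))] at h2
    have hTz : 4 * z ^ 4 + 12 * z ^ 3 + 18 * z ^ 2 + 12 * z + 3 = 3 * D + 4 * z ^ 4 := by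
      rw [hD]; ring
    have hTw : 4 * w ^ 4 + 12 * w ^ 3 + 18 * w ^ 2 + 12 * w + 3 = 3 * E + 4 * w ^ 4 := by
      rw [hE]; ring
    rw [hTz, hTw] at h2
    have hz1 : (z + 1) ^ 4 = D + z ^ 4 := by rw [hD]; ring
    have hw1 : (w + 1) ^ 4 = E + w ^ 4 := by rw [hE]; ring
    have hcube : z ^ 12 * (D + z ^ 4) * E ^ 4 = w ^ 12 * (E + w ^ 4) * D ^ 4 := by
      rw [← hz1, ← hw1]
      have e : (z ^ 4 + z ^ 3) ^ 4 * E ^ 4 = (w ^ 4 + w ^ 3) ^ 4 * D ^ 4 := by
        rw [← mul_pow, h1, mul_pow]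
      linear_combination e
    have hzw : z ^ 4 * E = w ^ 4 * D := by
      set A := z ^ 4 * E with hA
      set B := w ^ 4 * D with hB
      have e2 : (3 * (D * E) + 4 * A) ^ 2 = (3 * (D * E) + 4 * B) ^ 2 := by
        rw [hA, hB]
        linear_combination (1 / 9) * h2
      have e3 : A ^ 3 * (D * E + A) = B ^ 3 * (D * E + B) := by
        rw [hA, hB]
        linear_combination hcube
      have hDE : D * E ≠ 0 := mul_ne_zero hz hw
      have e4 : (A - B) * (6 * (D * E) + 4 * (A + B)) = 0 := by linear_combination (1 / 4) * e2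
      rcases mul_eq_zero.mp e4 with h | h
      · linear_combination h
      · have hB' : B = -(3 / 2) * (D * E) - A := by linear_combination (1 / 4) * h
        rw [hB'] at e3 ⊢
        have : (D * E) * (3 * (D * E) + 4 * A) ^ 3 = 0 := by linear_combination (-16) * e3
        have h0 : 3 * (D * E) + 4 * A = 0 := by
          rcases mul_eq_zero.mp this with h | h
          · exact absurd h hDE
          · exact pow_eq_zero_iff (by norm_num) |>.mp h
        linear_combination (1 / 2) * h0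
    by_cases hz0 : z = 0
    · rw [hz0] at hzw
      have : w ^ 4 * D = 0 := by rw [← hzw]; ring
      rcases mul_eq_zero.mp this with h | h
      · rw [hz0]
        exact (pow_eq_zero_iff (by norm_num) |>.mp h).symm
      · exact absurd h hz
    · have hw0 : w ≠ 0 := by
        rintro rfl
        have : z ^ 4 * E = 0 := by rw [hzw]; ring
        rcases mul_eq_zero.mp this with h | h
        · exact hz0 (pow_eq_zero_iff (by norm_num) |>.mp h)
        · exact hw h
      have hfin : z ^ 3 * w ^ 3 * (D * E) * (z - w) = 0 := by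
        linear_combination (w ^ 4 + w ^ 3) * D * hzw - w ^ 4 * D * h1
      have hnz : z ^ 3 * w ^ 3 * (D * E) ≠ 0 :=
        mul_ne_zero (mul_ne_zero (pow_ne_zero 3 hz0) (pow_ne_zero 3 hw0)) (mul_ne_zero hz hw)
      rcases mul_eq_zero.mp hfin with h | h
      · exact absurd h hnz
      · exact sub_eq_zero.mp h
  · compute_degree!
  · intro z
    simp [derivative_X_pow]
    ring
  · intro z hz
    simp only [eval_mul, eval_add, eval_pow, eval_X, eval_ofNat] at hz
    have hDz : 4 * z ^ 3 + 6 * z ^ 2 + 4 * z + 1 ≠ 0 := by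
      intro h
      rcases mul_eq_zero.mp hz with h0 | h0
      · rw [h0] at h; norm_num at h
      · have : z ^ 4 = 0 := by linear_combination (1 / 4) * h0 - (3 / 4) * h
        have hz0 : z = 0 := pow_eq_zero_iff (by norm_num) |>.mp this
        rw [hz0] at h; norm_num at h
    have hd2 : HasDerivAt (fun z : ℂ => 4 * z ^ 3 + 6 * z ^ 2 + 4 * z + 1)
        (12 * z ^ 2 + 12 * z + 4) z := by
      refine HasDerivAt.congr_deriv (f := fun z : ℂ => 4 * z ^ 3 + 6 * z ^ 2 + 4 * z + 1)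
        (((((hasDerivAt_pow 3 z).const_mul 4).add ((hasDerivAt_pow 2 z).const_mul 6)).add
          ((hasDerivAt_id z).const_mul 4)).add_const (1 : ℂ)) ?_
      norm_num
      ring
    refine ⟨(hmem z).mpr hDz, ?_, ?_⟩
    · have hn : HasDerivAt (fun z : ℂ => z ^ 4 + z ^ 3) (4 * z ^ 3 + 3 * z ^ 2) z := by
        refine HasDerivAt.congr_deriv (f := fun z : ℂ => z ^ 4 + z ^ 3)
          ((hasDerivAt_pow 4 z).add (hasDerivAt_pow 3 z)) ?_
        norm_num
      refine cp_deriv_div (f := fun z => z ^ 4 + z ^ 3)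
        (g := fun z => 4 * z ^ 3 + 6 * z ^ 2 + 4 * z + 1) hn hd2 hDz ?_
      linear_combination z * hz
    · have hn : HasDerivAt (fun z : ℂ => 4 * z ^ 4 + 12 * z ^ 3 + 18 * z ^ 2 + 12 * z + 3)
          (16 * z ^ 3 + 36 * z ^ 2 + 36 * z + 12) z := by
        refine HasDerivAt.congr_deriv
          (f := fun z : ℂ => 4 * z ^ 4 + 12 * z ^ 3 + 18 * z ^ 2 + 12 * z + 3)
          ((((((hasDerivAt_pow 4 z).const_mul 4).add ((hasDerivAt_pow 3 z).const_mul 12)).add
          ((hasDerivAt_pow 2 z).const_mul 18)).add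
          ((hasDerivAt_id z).const_mul 12)).add_const (3 : ℂ)) ?_
        norm_num
        ring
      have hn2 := hn.pow 2
      have hd3 := (hd2.const_mul 3).pow 2
      have h30 : (3 : ℂ) ≠ 0 := by norm_num
      refine cp_deriv_div (f := fun z => (4 * z ^ 4 + 12 * z ^ 3 + 18 * z ^ 2 + 12 * z + 3) ^ 2)
        (g := fun z => (3 * (4 * z ^ 3 + 6 * z ^ 2 + 4 * z + 1)) ^ 2) hn2 hd3
        (pow_ne_zero 2 (mul_ne_zero h30 hDz)) ?_
      push_cast
      linear_combination 288 * z ^ 2 * (z + 1) ^ 3 * (4 * z ^ 3 + 6 * z ^ 2 + 4 * z + 1) * hz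

end Pool.Agent.H58b
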