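import Pool.Agent.H58b.CritTwo

open Polynomial

namespace Pool.Agent.H58b

theorem cp_three : CPWitness 3 4 := by
  obtain ⟨r, hr⟩ := IsAlgClosed.exists_pow_nat_eq (-3 : ℂ) (n := 2) (by norm_num)
  have hr0 : r ≠ 0 := by
    rintro rfl
    norm_num at hr
  set s₁ : ℂ := (-3 + r) / 6 with hs₁
  set s₂ : ℂ := (-3 - r) / 6 with hs₂
  have hne : s₁ ≠ s₂ := by
    intro h
    apply hr0
    rw [hs₁, hs₂] at h
    linear_combination 3 * h
  have hprod : ∀ z : ℂ, (z - s₁) * (z - s₂) = (3 * z ^ 2 + 3 * z + 1) / 3 := by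
    intro z
    rw [hs₁, hs₂]
    linear_combination (-1 / 36) * hr
  have hmem : ∀ z : ℂ, z ∉ ({s₁, s₂} : Finset ℂ) ↔ 3 * z ^ 2 + 3 * z + 1 ≠ 0 := by
    intro z
    have h3 : 3 * z ^ 2 + 3 * z + 1 = 3 * ((z - s₁) * (z - s₂)) := by
      rw [hprod]; ring
    rw [h3]
    simp only [Finset.mem_insert, Finset.mem_singleton, not_or, ne_eq, mul_eq_zero, sub_eq_zero,
      OfNat.ofNat_ne_zero, false_or]
  have key := cp_witness (n := 3) (m := 4) {s₁, s₂}
    (fun z => (z ^ 3 + z ^ 2) / (3 * z ^ 2 + 3 * z + 1))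
    (fun z => (3 * z ^ 3 + 6 * z ^ 2 + 6 * z + 2) ^ 2 / (2 * (3 * z ^ 2 + 3 * z + 1)) ^ 2)
    (by rw [Finset.card_pair hne])
    ⟨C (1 / 3) * (X ^ 3 + X ^ 2), 1, fun z hz => ?_⟩
    ⟨C (1 / 36) * (3 * X ^ 3 + 6 * X ^ 2 + 6 * X + 2) ^ 2, 2, fun z hz => ?_⟩ ?_
    (X * (3 * X ^ 3 + 6 * X ^ 2 + 6 * X + 2)) (-7 - 12 * X - 12 * X ^ 2)
    (C (1 / 2) * (1 + 8 * X + 9 * X ^ 2 + 6 * X ^ 3)) ?_ ?_ ?_
  · exact key
  · have hD := (hmem z).mp hz
    rw [Finset.prod_pair hne, hprod]
    simp only [eval_mul, eval_C, eval_add, eval_pow, eval_X, pow_one]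
    field_simp
  · have hD := (hmem z).mp hz
    rw [Finset.prod_pair hne, hprod]
    simp only [eval_mul, eval_C, eval_add, eval_pow, eval_X, eval_ofNat]
    field_simp
    ring
  · intro z hz w hw h
    simp only [Set.mem_setOf_eq] at hz hw
    rw [hmem] at hz hw
    simp only [Prod.mk.injEq] at h
    obtain ⟨h1, h2⟩ := h
    set D := 3 * z ^ 2 + 3 * z + 1 with hD
    set E := 3 * w ^ 2 + 3 * w + 1 with hE
    rw [div_eq_div_iff hz hw] at h1
    rw [div_eq_div_iff (pow_ne_zero 2 (mul_ne_zero two_ne_zero hz))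
      (pow_ne_zero 2 (mul_ne_zero two_ne_zero hw))] at h2
    have hTz : 3 * z ^ 3 + 6 * z ^ 2 + 6 * z + 2 = 2 * D + 3 * z ^ 3 := by rw [hD]; ring
    have hTw : 3 * w ^ 3 + 6 * w ^ 2 + 6 * w + 2 = 2 * E + 3 * w ^ 3 := by rw [hE]; ring
    rw [hTz, hTw] at h2
    -- cube of the first equation
    have hz1 : (z + 1) ^ 3 = D + z ^ 3 := by rw [hD]; ring
    have hw1 : (w + 1) ^ 3 = E + w ^ 3 := by rw [hE]; ring
    have hcube : z ^ 6 * (D + z ^ 3) * E ^ 3 = w ^ 6 * (E + w ^ 3) * D ^ 3 := by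
      rw [← hz1, ← hw1]
      have e : (z ^ 3 + z ^ 2) ^ 3 * E ^ 3 = (w ^ 3 + w ^ 2) ^ 3 * D ^ 3 := by
        rw [← mul_pow, h1, mul_pow]
      linear_combination e
    have hzw : z ^ 3 * E = w ^ 3 * D := by
      set A := z ^ 3 * E with hA
      set B := w ^ 3 * D with hB
      have e2 : (2 * (D * E) + 3 * A) ^ 2 = (2 * (D * E) + 3 * B) ^ 2 := by
        rw [hA, hB]
        linear_combination (1 / 4) * h2
      have e3 : A ^ 2 * (D * E + A) = B ^ 2 * (D * E + B) := by
        rw [hA, hB]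
        linear_combination hcube
      have hDE : D * E ≠ 0 := mul_ne_zero hz hw
      have e4 : (A - B) * (4 * (D * E) + 3 * (A + B)) = 0 := by linear_combination (1 / 3) * e2
      rcases mul_eq_zero.mp e4 with h | h
      · linear_combination h
      · -- then the common value is at t = 0
        have hB' : B = -(4 / 3) * (D * E) - A := by linear_combination (1 / 3) * h
        rw [hB'] at e3 ⊢
        have : (3 * A + 2 * (D * E)) ^ 3 = 0 := by linear_combination (27 / 2) * e3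
        have h0 : 3 * A + 2 * (D * E) = 0 := pow_eq_zero_iff (by norm_num) |>.mp this
        linear_combination (2 / 3) * h0
    by_cases hz0 : z = 0
    · rw [hz0] at hzw
      have : w ^ 3 * D = 0 := by rw [← hzw]; ring
      rcases mul_eq_zero.mp this with h | h
      · rw [hz0]
        exact (pow_eq_zero_iff (by norm_num) |>.mp h).symm
      · exact absurd h hz
    · have hw0 : w ≠ 0 := by
        rintro rfl
        have : z ^ 3 * E = 0 := by rw [hzw]; ring
        rcases mul_eq_zero.mp this with h | h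
        · exact hz0 (pow_eq_zero_iff (by norm_num) |>.mp h)
        · exact hw h
      have hfin : z ^ 2 * w ^ 2 * (D * E) * (z - w) = 0 := by
        linear_combination (w ^ 3 + w ^ 2) * D * hzw - w ^ 3 * D * h1
      have hnz : z ^ 2 * w ^ 2 * (D * E) ≠ 0 :=
        mul_ne_zero (mul_ne_zero (pow_ne_zero 2 hz0) (pow_ne_zero 2 hw0)) (mul_ne_zero hz hw)
      rcases mul_eq_zero.mp hfin with h | h
      · exact absurd h hnz
      · exact sub_eq_zero.mp h
  · compute_degree!
  · intro z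
    simp [derivative_X_pow]
    ring
  · intro z hz
    simp only [eval_mul, eval_add, eval_pow, eval_X, eval_ofNat] at hz
    have hDz : 3 * z ^ 2 + 3 * z + 1 ≠ 0 := by
      intro h
      rcases mul_eq_zero.mp hz with h0 | h0
      · rw [h0] at h; norm_num at h
      · have : z ^ 3 = 0 := by linear_combination (1 / 3) * h0 - (2 / 3) * h
        have hz0 : z = 0 := pow_eq_zero_iff (by norm_num) |>.mp this
        rw [hz0] at h; norm_num at h
    have hd2 : HasDerivAt (fun z : ℂ => 3 * z ^ 2 + 3 * z + 1) (6 * z + 3) z := by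
      refine HasDerivAt.congr_deriv (f := fun z : ℂ => 3 * z ^ 2 + 3 * z + 1)
        ((((hasDerivAt_pow 2 z).const_mul 3).add ((hasDerivAt_id z).const_mul 3)).add_const
        (1 : ℂ)) ?_
      norm_num
      ring
    refine ⟨(hmem z).mpr hDz, ?_, ?_⟩
    · have hn : HasDerivAt (fun z : ℂ => z ^ 3 + z ^ 2) (3 * z ^ 2 + 2 * z) z := by
        refine HasDerivAt.congr_deriv (f := fun z : ℂ => z ^ 3 + z ^ 2)
          ((hasDerivAt_pow 3 z).add (hasDerivAt_pow 2 z)) ?_
        norm_num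
      refine cp_deriv_div (f := fun z => z ^ 3 + z ^ 2) (g := fun z => 3 * z ^ 2 + 3 * z + 1)
        hn hd2 hDz ?_
      linear_combination hz
    · have hn : HasDerivAt (fun z : ℂ => 3 * z ^ 3 + 6 * z ^ 2 + 6 * z + 2)
          (9 * z ^ 2 + 12 * z + 6) z := by
        refine HasDerivAt.congr_deriv (f := fun z : ℂ => 3 * z ^ 3 + 6 * z ^ 2 + 6 * z + 2)
          (((((hasDerivAt_pow 3 z).const_mul 3).add ((hasDerivAt_pow 2 z).const_mul 6)).add
          ((hasDerivAt_id z).const_mul 6)).add_const (2 : ℂ)) ?_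
        norm_num
        ring
      have hn2 := hn.pow 2
      have hd3 := (hd2.const_mul 2).pow 2
      refine cp_deriv_div (f := fun z => (3 * z ^ 3 + 6 * z ^ 2 + 6 * z + 2) ^ 2)
        (g := fun z => (2 * (3 * z ^ 2 + 3 * z + 1)) ^ 2) hn2 hd3
        (pow_ne_zero 2 (mul_ne_zero two_ne_zero hDz)) ?_
      push_cast
      linear_combination 72 * z * (z + 1) ^ 2 * (3 * z ^ 2 + 3 * z + 1) * hz

end Pool.Agent.H58b
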