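import Pool.Agent.H58b.CritDefs

open Polynomial

namespace Pool.Agent.H58b

/-- derivative of a quotient in one step -/
theorem cp_deriv_div {f g : ℂ → ℂ} {f' g' z : ℂ} (hf : HasDerivAt f f' z)
    (hg : HasDerivAt g g' z) (h0 : g z ≠ 0) (h : f' * g z - f z * g' = 0) :
    deriv (fun w => f w / g w) z = 0 := by
  have h1 : HasDerivAt (fun w => f w / g w) ((f' * g z - f z * g') / (g z) ^ 2) z :=
    hf.div hg h0
  rw [h1.deriv, h, zero_div]

theorem cp_two : CPWitness 2 3 := by
  have key := cp_witness (n := 2) (m := 3) {0} (fun z => (z ^ 3 + 2) / z)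
    (fun z => (2 * z ^ 3 + 1) / z ^ 2) (by simp)
    ⟨X ^ 3 + 2, 1, fun z _ => by simp⟩ ⟨2 * X ^ 3 + 1, 2, fun z _ => by simp⟩ ?_
    (X ^ 3 - 1) (-1) (C (1 / 3) * X) ?_ ?_ ?_
  · exact key
  · intro z hz w hw h
    simp only [Finset.mem_singleton, Set.mem_setOf_eq] at hz hw
    simp only [Prod.mk.injEq] at h
    obtain ⟨h1, h2⟩ := h
    by_contra hne
    have hd : z - w ≠ 0 := sub_ne_zero.mpr hne
    rw [div_eq_div_iff hz hw] at h1
    rw [div_eq_div_iff (pow_ne_zero 2 hz) (pow_ne_zero 2 hw)] at h2
    have e1 : z * w * (z + w) = 2 := by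
      have : (z - w) * (z * w * (z + w) - 2) = 0 := by linear_combination h1
      rcases mul_eq_zero.mp this with h | h
      · exact absurd h hd
      · linear_combination h
    have e2 : z + w = 2 * (z * w) ^ 2 := by
      have : (z - w) * ((z + w) - 2 * (z * w) ^ 2) = 0 := by linear_combination -h2
      rcases mul_eq_zero.mp this with h | h
      · exact absurd h hd
      · linear_combination h
    have hp : (z * w) ^ 3 = 1 := by
      rw [e2] at e1
      linear_combination (1 / 2) * e1
    have hsq : (z - w) ^ 2 = 0 := by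
      have : (z - w) ^ 2 = (z + w) ^ 2 - 4 * (z * w) := by ring
      rw [this, e2]
      linear_combination 4 * (z * w) * hp
    exact hd (pow_eq_zero_iff (two_ne_zero)|>.mp hsq)
  · compute_degree!
  · intro z
    simp [derivative_X_pow]
    ring
  · intro z hz
    have hz3 : z ^ 3 = 1 := by
      simp only [eval_sub, eval_pow, eval_X, eval_one] at hz
      linear_combination hz
    have hz0 : z ≠ 0 := by
      rintro rfl
      norm_num at hz3
    refine ⟨by simpa using hz0, ?_, ?_⟩
    · refine cp_deriv_div (f := fun z => z ^ 3 + 2) (g := fun z => z)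
        (((hasDerivAt_pow 3 z).add_const 2)) (hasDerivAt_id z) hz0 ?_
      push_cast
      linear_combination 2 * hz3
    · refine cp_deriv_div (f := fun z => 2 * z ^ 3 + 1) (g := fun z => z ^ 2)
        (((hasDerivAt_pow 3 z).const_mul 2).add_const 1) (hasDerivAt_pow 2 z)
        (pow_ne_zero 2 hz0) ?_
      push_cast
      linear_combination (2 * z) * hz3

end Pool.Agent.H58b
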